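import Pool.Agent.Y689.CE.Res

/-!
# The optimal Lipschitz constants of conjugates are given by the geometric entropy

For every finite symmetric set `S` of `C^1` circle diffeomorphisms, the infimum of the numbers
`log L` for which some homeomorphism conjugates all elements of `S` to `L`-Lipschitz maps is equal
to the geometric entropy of Ghys, Langevin and Walczak, and it is zero if and only if no two
orientation preserving elements of the group form a resilient pair. So the question has a positive
answer, and for all other groups the best constant is determined: it is the exponential of the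
geometric entropy, at least the `l`-th root of two if two words of length `l` form a resilient pair.

Proof. Upper bound for the constants: let `e` be larger than the entropy. A maximal
`(n, δ)`-separated set `E_n` has at most `C exp (b n)` elements with `b < e`, and every point `x` is
`δ`-close to some `z` in `E_n` for all words of length at most `n`; by bounded distortion
`w'(x) ≤ exp (η n) / max (d (x, z)) (exp (- A n))` for these words. So the function
`sup_w exp (- e |w|) w'(x)` is integrable, and its normalised primitive is a conjugating map.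
Lower bound: packing. The vanishing of the entropy without resilient pairs uses the library theorem
of the earlier result; a resilient pair gives `2 ^ n` separated points by ping-pong.
-/

set_option autoImplicit false
open Filter Topology
open scoped ENNReal NNReal

namespace Pool.Agent.Results.MP_12d91b_an.EntropyThreshold

/-- The circle `ℝ/ℤ` (its metric is the arc length metric). -/
abbrev Circ : Type := AddCircle (1 : ℝ)

/-- A homeomorphism of the circle is a `C^1` diffeomorphism when it has a `C^1` lift to the line
whose derivative never vanishes. -/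
def IsC1Diffeo (f : Circ ≃ₜ Circ) : Prop :=
  ∃ F : ℝ → ℝ, ContDiff ℝ 1 F ∧ (∀ x : ℝ, deriv F x ≠ 0) ∧
    ∀ x : ℝ, f (x : Circ) = (F x : Circ)

/-- `f` preserves the orientation of the circle: it has an increasing continuous lift. -/
def IsOrientationPreserving (f : Circ ≃ₜ Circ) : Prop :=
  ∃ F : ℝ → ℝ, Continuous F ∧ StrictMono F ∧ ∀ x : ℝ, f (x : Circ) = (F x : Circ)

/-- The set `T` of circle homeomorphisms contains a resilient pair: elements `f, g` of `T` and
points `x, y` of the circle such that `x, f x, f y, g x, g y, y` are distinct and occur in this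
order along an arc starting at `x`. Here `x, y` are the classes of `t₀, t₅`. -/
def HasResilientPair (T : Set (Circ ≃ₜ Circ)) : Prop :=
  ∃ f ∈ T, ∃ g ∈ T, ∃ t₀ t₁ t₂ t₃ t₄ t₅ : ℝ,
    t₀ < t₁ ∧ t₁ < t₂ ∧ t₂ < t₃ ∧ t₃ < t₄ ∧ t₄ < t₅ ∧ t₅ < t₀ + 1 ∧
    f (t₀ : Circ) = (t₁ : Circ) ∧ f (t₅ : Circ) = (t₂ : Circ) ∧
    g (t₀ : Circ) = (t₃ : Circ) ∧ g (t₅ : Circ) = (t₄ : Circ)

/-- Some homeomorphism of the circle conjugates all elements of `S` to maps with Lipschitz
constant `L`. -/
def ConjLip (S : Set (Circ ≃ₜ Circ)) (L : ℝ≥0) : Prop :=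
  ∃ h : Circ ≃ₜ Circ, ∀ s ∈ S, LipschitzWith L (fun x => h (s (h.symm x)))

/-- The products of at most `n` elements of `S`. -/
def Ball (S : Set (Circ ≃ₜ Circ)) (n : ℕ) : Set (Circ ≃ₜ Circ) :=
  {w | ∃ l : List (Circ ≃ₜ Circ), l.length ≤ n ∧ (∀ s ∈ l, s ∈ S) ∧ l.prod = w}

/-- The finite set `A` is `(n, δ)`-separated: any two points of `A` are moved to distance at least
`δ` by some product of at most `n` elements of `S`. -/
def Separated (S : Set (Circ ≃ₜ Circ)) (n : ℕ) (δ : ℝ) (A : Finset Circ) : Prop :=
  ∀ x ∈ A, ∀ y ∈ A, x ≠ y → ∃ w ∈ Ball S n, δ ≤ dist (w x) (w y)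

/-- The maximal cardinality of an `(n, δ)`-separated set (for finite `S` and `δ > 0` it is
attained, see `sepNumber_attained`). -/
noncomputable def sepNumber (S : Set (Circ ≃ₜ Circ)) (n : ℕ) (δ : ℝ) : ℕ :=
  sSup {k | ∃ A : Finset Circ, Separated S n δ A ∧ A.card = k}

/-- The geometric entropy of the group generated by `S` (Ghys, Langevin, Walczak): the supremum
over `δ > 0` (which is the limit for `δ → 0`) of the exponential growth rates of the maximal
cardinalities of `(n, δ)`-separated sets. -/
noncomputable def entropy (S : Set (Circ ≃ₜ Circ)) : ℝ≥0∞ :=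
  ⨆ (δ : ℝ) (_ : 0 < δ),
    limsup (fun n : ℕ => ENNReal.ofReal (Real.log (sepNumber S n δ) / n)) atTop

/-- The maximal cardinality of an `(n, δ)`-separated set exists. -/
theorem sepNumber_attained {S : Set (Circ ≃ₜ Circ)} (hfin : S.Finite) (n : ℕ) {δ : ℝ}
    (hδ : 0 < δ) :
    (∃ A : Finset Circ, Separated S n δ A ∧ A.card = sepNumber S n δ) ∧
      ∀ A : Finset Circ, Separated S n δ A → A.card ≤ sepNumber S n δ :=
  ⟨Pool.Agent.Y689.CE.exists_max hfin n hδ,
    fun _ hA => Pool.Agent.Y689.CE.card_le_sepNumber hfin hδ hA⟩

/-- The entropy is at least `log 2 / l` if two orientation preserving products of at most `l`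
elements of `S` form a resilient pair, and it is finite. -/
theorem entropy_bounds (S : Set (Circ ≃ₜ Circ)) (hfin : S.Finite) (hsym : ∀ s ∈ S, s⁻¹ ∈ S)
    (hC1 : ∀ s ∈ S, IsC1Diffeo s) :
    entropy S ≠ ∞ ∧
    ∀ l : ℕ, 0 < l → HasResilientPair {g | g ∈ Ball S l ∧ IsOrientationPreserving g} →
      ENNReal.ofReal (Real.log 2 / l) ≤ entropy S :=
  ⟨Pool.Agent.Y689.CE.entropy_lt_top hfin hC1,
    fun _ hl h => Pool.Agent.Y689.CE.entropy_ge hfin hsym hl h⟩

/-- Let `S` be a finite symmetric set of `C^1` diffeomorphisms of the circle.
(1) The infimum of the numbers `log L` such that some homeomorphism of the circle conjugates all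
elements of `S` to maps with Lipschitz constant `L` is the geometric entropy.
(2) It is zero if and only if no two orientation preserving elements of the group generated by `S`
form a resilient pair.
(3) So the elements of `S` are conjugate, by one homeomorphism, to Lipschitz maps with constant
`exp ε`, for every `ε > 0`, if and only if no two orientation preserving elements of the group
form a resilient pair;
(4) in particular this is the case if there is no resilient pair in the group. -/
theorem result (S : Set (Circ ≃ₜ Circ)) (hfin : S.Finite) (hsym : ∀ s ∈ S, s⁻¹ ∈ S)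
    (hC1 : ∀ s ∈ S, IsC1Diffeo s) :
    entropy S = ⨅ (L : ℝ≥0) (_ : ConjLip S L), ENNReal.ofReal (Real.log L) ∧
    (entropy S = 0 ↔
      ¬ HasResilientPair {g | g ∈ Subgroup.closure S ∧ IsOrientationPreserving g}) ∧
    ((∀ ε : ℝ, 0 < ε → ConjLip S (Real.toNNReal (Real.exp ε))) ↔
      ¬ HasResilientPair {g | g ∈ Subgroup.closure S ∧ IsOrientationPreserving g}) ∧
    (¬ HasResilientPair {g | g ∈ Subgroup.closure S} →
      ∀ ε : ℝ, 0 < ε → ConjLip S (Real.toNNReal (Real.exp ε))) := by
  have h5 : (∀ ε : ℝ, 0 < ε → ConjLip S (Real.toNNReal (Real.exp ε))) ↔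
      ¬ HasResilientPair {g | g ∈ Subgroup.closure S ∧ IsOrientationPreserving g} := by
    constructor
    · intro h hres
      refine Pool.Agent.Y689.CE.entropy_pos hfin hsym hres ?_
      rw [← nonpos_iff_eq_zero]
      apply ENNReal.le_of_forall_pos_le_add
      intro e he _
      rw [zero_add]
      have h1 := Pool.Agent.Y689.CE.entropy_le hfin (h e (by exact_mod_cast he))
      rw [Real.coe_toNNReal _ (Real.exp_pos _).le, Real.log_exp] at h1
      simpa using h1
    · intro h ε hε
      exact Pool.Agent.Helper320.LC.main_robust S hfin hsym hC1 h ε hε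
  refine ⟨Pool.Agent.Y689.CE.entropy_eq hfin hsym hC1,
    Pool.Agent.Y689.CE.entropy_eq_zero_iff hfin hsym hC1, h5, fun h => h5.2 ?_⟩
  rintro ⟨f, hf, g, hg, hrest⟩
  exact h ⟨f, hf.1, g, hg.1, hrest⟩

end Pool.Agent.Results.MP_12d91b_an.EntropyThreshold
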